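import Mathlib
import Pool.Agent.PatSturm.NRStatement
import Pool.Agent.Helper434.AlgProof

set_option autoImplicit false

namespace Pool.Agent.Results.MP_10bfcf_co.Algorithm

open Pool.Agent.PatSturm.NR.Statement (patternComplexity IntervalWord ToeplitzWord)
open Pool.Agent.Helper434.Alg (SparseWord)

/-- **All binary words with pattern complexity `2n`**, the sparse class being described by an
algorithm of Euclidean type. -/
theorem result (f : ℕ+ → Bool) :
    (∀ n : ℕ, 1 ≤ n → patternComplexity f n = 2 * n) ↔
      IntervalWord f ∨ ToeplitzWord f ∨ SparseWord f ∨ SparseWord fun n => !f n := by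
  rw [Pool.Agent.PatSturm.NR.Fin.full f, Pool.Agent.Helper434.Alg.sparse_iff,
    Pool.Agent.Helper434.Alg.sparse_iff]

end Pool.Agent.Results.MP_10bfcf_co.Algorithm
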