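import Mathlib
import Pool.Agent.PatSturm.NRStatement
import Pool.Agent.PatSturm.NRFinal

set_option autoImplicit false

namespace Pool.Agent.Results.MP_10bfcf_co.Classification

open Pool.Agent.PatSturm.NR.Statement

/-- **All binary words with pattern complexity `2n`.** A word `f : {1,2,3,...} → {0,1}` satisfies
`P*_f(n) = 2n` for every `n ≥ 1` if and only if it is a coding of an irrational rotation by an
interval, or an arc-Toeplitz word, or `f` or its complement is a sparse word given by the rule. -/
theorem result (f : ℕ+ → Bool) :
    (∀ n : ℕ, 1 ≤ n → patternComplexity f n = 2 * n) ↔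
      IntervalWord f ∨ ToeplitzWord f ∨ SparseWord f ∨ SparseWord fun n => !f n :=
  Pool.Agent.PatSturm.NR.Fin.full f

end Pool.Agent.Results.MP_10bfcf_co.Classification
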